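import Pool.Agent.TH682.VC.Sound

/-!
# Votes over enumerable classes admit the exclusion of a vector
-/

set_option autoImplicit false

namespace Pool.Agent.TH682.VC

open Pool.Agent.NPC Pool.Agent.H579R2.Spt Pool.Agent.H251R5.PQ
open Pool.Agent.TH684.EX (Exc poly_of_polyTime p_eq_np_of_exc)

/-- Functions bounded by a polynomial. -/
def PB (F : ℕ → ℕ) : Prop := ∃ p : Polynomial ℕ, ∀ n, F n ≤ p.eval n

theorem PB.id : PB (fun n => n) := ⟨Polynomial.X, fun n => by simp⟩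

theorem PB.const (c : ℕ) : PB (fun _ => c) := ⟨Polynomial.C c, fun n => by simp⟩

theorem PB.add {F G : ℕ → ℕ} (hF : PB F) (hG : PB G) : PB (fun n => F n + G n) := by
  obtain ⟨p, hp⟩ := hF
  obtain ⟨q, hq⟩ := hG
  exact ⟨p + q, fun n => by rw [Polynomial.eval_add]; exact Nat.add_le_add (hp n) (hq n)⟩

theorem PB.mul {F G : ℕ → ℕ} (hF : PB F) (hG : PB G) : PB (fun n => F n * G n) := by
  obtain ⟨p, hp⟩ := hF
  obtain ⟨q, hq⟩ := hG
  exact ⟨p * q, fun n => by rw [Polynomial.eval_mul]; exact Nat.mul_le_mul (hp n) (hq n)⟩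

theorem PB.pow {F : ℕ → ℕ} (hF : PB F) (k : ℕ) : PB (fun n => F n ^ k) := by
  obtain ⟨p, hp⟩ := hF
  exact ⟨p ^ k, fun n => by rw [Polynomial.eval_pow]; exact Nat.pow_le_pow_left (hp n) k⟩

theorem PB.le {F G : ℕ → ℕ} (hG : PB G) (h : ∀ n, F n ≤ G n) : PB F := by
  obtain ⟨q, hq⟩ := hG
  exact ⟨q, fun n => (h n).trans (hq n)⟩

theorem PB.bound {F : ℕ → ℕ} (hF : PB F) : ∃ b : ℕ, ∀ n, F n ≤ n ^ b + b := by
  obtain ⟨p, hp⟩ := hF
  obtain ⟨e, he⟩ := exists_pow_bound p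
  refine ⟨e + p.eval 1, fun n => (hp n).trans ?_⟩
  rcases Nat.lt_or_ge n 2 with h | h
  · have : p.eval n ≤ p.eval 1 := eval_mono p (by omega)
    omega
  · have h1 := he n h
    have h2 : n ^ e ≤ n ^ (e + p.eval 1) := Nat.pow_le_pow_right (by omega) (by omega)
    omega

theorem two_pow_size_le (m : ℕ) : 2 ^ m.size ≤ 2 * m + 1 := by
  rcases Nat.eq_zero_or_pos m with h0 | h0
  · rw [h0]; simp
  · have h1 : 0 < Nat.size m := Nat.size_pos.2 h0
    have h2 : 2 ^ (Nat.size m - 1) ≤ m := by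
      by_contra hcon
      have := Nat.size_le.2 (not_le.1 hcon)
      omega
    have h3 : 2 ^ Nat.size m = 2 * 2 ^ (Nat.size m - 1) := by
      rw [← pow_succ']
      congr 1
      omega
    omega

theorem two_pow_size_le' {m : ℕ} (hm : 0 < m) : 2 ^ m.size ≤ 2 * m := by
  have h1 : 0 < Nat.size m := Nat.size_pos.2 hm
  have h2 : 2 ^ (Nat.size m - 1) ≤ m := by
    by_contra hcon
    have := Nat.size_le.2 (not_le.1 hcon)
    omega
  have h3 : 2 ^ Nat.size m = 2 * 2 ^ (Nat.size m - 1) := by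
    rw [← pow_succ']
    congr 1
    omega
  omega

/-- The parameters. -/
abbrev Prm := ℕ × (ℕ × (ℕ × (ℕ × ℕ)))

theorem num_prm_le (a P Q ℓ M : ℕ) : num (bits ((a, (P, (Q, (ℓ, M)))) : Prm)) ≤
    2 ^ 10 * ((2 ^ a.size) ^ 4 * ((2 ^ P.size) ^ 4 * ((2 ^ Q.size) ^ 4 * ((2 ^ ℓ.size) ^ 4 *
      (2 ^ M.size) ^ 4)))) := by
  refine (num_lt _).le.trans ?_
  rw [bits_length, sz_pair, sz_pair, sz_pair, sz_pair]
  have h1 := sz_nat_le a
  have h2 := sz_nat_le P
  have h3 := sz_nat_le Q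
  have h4 := sz_nat_le ℓ
  have h5 := sz_nat_le M
  simp only [← pow_mul, ← pow_add]
  exact Nat.pow_le_pow_right (by norm_num) (by omega)

theorem idx_le (P Q ℓ : ℕ) (u : List Bool) (hu : u.length ≤ ℓ) : idx P Q u ≤
    2 ^ 6 * ((2 ^ P.size) ^ 4 * ((2 ^ Q.size) ^ 4 * (2 ^ ℓ) ^ 4)) := by
  refine (num_lt _).le.trans ?_
  rw [bits_length, sz_pair, sz_pair]
  have h1 := sz_nat_le P
  have h2 := sz_nat_le Q
  have h3 := sz_listBool_le u
  simp only [← pow_mul, ← pow_add]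
  exact Nat.pow_le_pow_right (by norm_num) (by omega)

/-- Decoding of the advice. -/
def decA (a : ℕ) : Prm := (unbits Prm (str a)).getD (0, (0, (0, (0, 0))))

theorem decA_num (r : Prm) : decA (num (bits r)) = r := by
  rw [decA, str_num, unbits_bits]
  rfl

theorem decA_poly : Poly decA := NPC.Poly.optGetD (poly_unbits.comp str_poly) (NPC.Poly.const _)

/-- The exclusion algorithm. -/
def XX (f : List Bool → List (List Bool)) (g : List Bool → List Bool)
    (E : List Bool → List (List Bool)) (K : ℕ) (q : List (List Bool) × ℕ) : ℕ :=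
  idx (decA q.2).2.1 (decA q.2).2.2.1 (pad q.1.length (decA q.2).2.2.2.1
    (fu f g E K q.1 (decA q.2).1 (decA q.2).2.1 (decA q.2).2.2.1 (decA q.2).2.2.2.1
      (decA q.2).2.2.2.2))

theorem XX_poly {f : List Bool → List (List Bool)} {g : List Bool → List Bool}
    {E : List Bool → List (List Bool)} (hf : Poly f) (hg : Poly g) (hE : Poly E) (K : ℕ) :
    Poly (XX f g E K) := by
  have e1 : Poly (fun q : List (List Bool) × ℕ => q.1) := NPC.Poly.fst NPC.Poly.id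
  have d0 : Poly (fun q : List (List Bool) × ℕ => decA q.2) :=
    decA_poly.comp (NPC.Poly.snd NPC.Poly.id)
  have d1 := NPC.Poly.fst d0
  have d2 := NPC.Poly.snd d0
  have d3 := NPC.Poly.fst d2
  have d4 := NPC.Poly.snd d2
  have d5 := NPC.Poly.fst d4
  have d6 := NPC.Poly.snd d4
  have d7 := NPC.Poly.fst d6
  have d8 := NPC.Poly.snd d6
  refine num_poly.comp (bits_poly.comp (NPC.Poly.pair d3 (NPC.Poly.pair d5 ?_)))
  exact pad_poly (UPoly.length e1) d7 (fu_poly hf hg hE K e1 d1 d3 d5 d7 d8)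

theorem vec_eq (m P Q : ℕ) (u : List Bool) :
    (List.range m).map (fun i => lam (m, (idx P Q u, i))) = lv P Q m u := by
  unfold lv lam
  simp only [dec_idx]

/-- **Votes over enumerable classes admit the exclusion of a vector.** -/
theorem exc_of_vote {C : Set (Set (List Bool))} {A : Set (List Bool)} (hEn : Enumerable C)
    (h : Vote C A) : ∃ (b : ℕ) (X : List (List Bool) × ℕ → ℕ), Poly X ∧ Exc A lam b X := by
  classical
  obtain ⟨E, hE, hEC⟩ := hEn
  obtain ⟨f, g, c, hf, hg, hvote⟩ := h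
  have hfp : Poly f := poly_of_polyTime hf
  have hgp : Poly g := PIso.poly_iff.2 hg
  have hEp : Poly E := poly_of_polyTime hE
  obtain ⟨p, hp⟩ := (hh_poly hfp hgp hEp (a := fun q : List (List Bool) × ℕ => q.2)
    (qs := fun q : List (List Bool) × ℕ => q.1) (NPC.Poly.snd NPC.Poly.id)
    (NPC.Poly.fst NPC.Poly.id)).sz_le
  -- exponents
  set Mp : Polynomial ℕ := Polynomial.C 4 * (Polynomial.X ^ c + Polynomial.C c) + 4 with hMp
  have hMpe : ∀ n : ℕ, Mp.eval n = 4 * (n ^ c + c) + 4 := fun n => by simp [hMp]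
  obtain ⟨e1, he1⟩ := exists_pow_bound Mp
  set e2 : ℕ := 2 * e1 + 3 with he2
  set Hp : Polynomial ℕ := p.comp (Polynomial.X ^ (2 * e2 + 3) * (Polynomial.C 4 * Polynomial.X + 2)
    + 1 + (Polynomial.C 4 * (Polynomial.X ^ c + Polynomial.C c) + 1) + 1) with hHp
  obtain ⟨e3, he3⟩ := exists_pow_bound Hp
  set e4 : ℕ := e3 + 2 * e1 + 2 with he4
  set s : ℕ → ℕ := fun n => n.size + e4 + 2 with hs
  set B : ℕ → ℕ := fun n => 2 ^ s n with hB
  set P : ℕ → ℕ := fun n => prm (B n ^ e2) with hP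
  set k : ℕ → ℕ := fun n => (P n).size with hk
  set ℓ : ℕ → ℕ := fun n => e4 * s n with hℓ
  -- facts
  have hB0 : ∀ n, 0 < B n := fun n => by simp only [hB]; positivity
  have hB4 : ∀ n, 4 ≤ B n := fun n => by
    simp only [hB, hs]
    calc 4 = 2 ^ 2 := by norm_num
      _ ≤ _ := Nat.pow_le_pow_right (by norm_num) (by omega)
  have hBn : ∀ n, n ≤ B n := fun n => by
    have h1 : n < 2 ^ n.size := Nat.lt_size_self n
    have h2 : 2 ^ n.size ≤ B n := Nat.pow_le_pow_right (by norm_num) (by simp only [hs]; omega)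
    omega
  have hsB : ∀ n, s n ≤ B n := fun n => (Nat.lt_two_pow_self (n := s n)).le
  have hℓB : ∀ n, ℓ n ≤ B n ^ 2 := fun n => by
    have h1 : e4 ≤ B n := (show e4 ≤ s n by simp only [hs]; omega).trans (hsB n)
    rw [sq]
    exact Nat.mul_le_mul h1 (hsB n)
  have hprm := fun n => prm_spec (m := B n ^ e2) (pow_pos (hB0 n) _).ne'
  have hPp : ∀ n, (P n).Prime := fun n => (hprm n).1
  have hP1 : ∀ n, B n ^ e2 < P n := fun n => (hprm n).2.1
  have hP2 : ∀ n, P n ≤ 2 * B n ^ e2 := fun n => (hprm n).2.2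
  have hPk : ∀ n, P n ≤ 2 ^ k n := fun n => (Nat.lt_size_self (P n)).le
  have hk2 : ∀ n, 2 ^ k n ≤ 4 * B n ^ e2 := fun n => by
    have h1 : 2 ^ k n ≤ 2 * P n := two_pow_size_le' (hPp n).pos
    have h2 := hP2 n
    omega
  have hT1 : ∀ n, P n * 2 ^ k n ≤ B n ^ (2 * e2 + 3) := fun n => by
    calc P n * 2 ^ k n ≤ (2 * B n ^ e2) * (4 * B n ^ e2) := Nat.mul_le_mul (hP2 n) (hk2 n)
      _ = 8 * B n ^ (2 * e2) := by ring
      _ ≤ B n ^ 3 * B n ^ (2 * e2) := by
        refine Nat.mul_le_mul_right _ ?_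
        calc 8 ≤ 4 ^ 3 := by norm_num
          _ ≤ _ := Nat.pow_le_pow_left (hB4 n) 3
      _ = _ := by rw [← pow_add]; congr 1; omega
  have hBP : ∀ n, B n ≤ P n * 2 ^ k n := fun n => by
    calc B n = B n ^ 1 := (pow_one _).symm
      _ ≤ B n ^ e2 := Nat.pow_le_pow_right (hB0 n) (by omega)
      _ ≤ P n := (hP1 n).le
      _ = P n * 1 := (mul_one _).symm
      _ ≤ _ := Nat.mul_le_mul_left _ (Nat.one_le_two_pow)
  have hM1 : ∀ n, 4 * (n ^ c + c) + 4 ≤ B n ^ e1 := fun n => by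
    rw [← hMpe]
    exact (eval_mono Mp (hBn n)).trans (he1 _ (by have := hB4 n; omega))
  have h2ℓ : ∀ n, 2 ^ ℓ n = B n ^ e4 := fun n => by
    simp only [hℓ, hB]
    rw [← pow_mul, mul_comm]
  have hc2 : ∀ n, ℓ n ≤ P n * 2 ^ k n := fun n => by
    calc ℓ n ≤ B n ^ 2 := hℓB n
      _ ≤ B n ^ e2 := Nat.pow_le_pow_right (hB0 n) (by omega)
      _ ≤ P n := (hP1 n).le
      _ = P n * 1 := (mul_one _).symm
      _ ≤ _ := Nat.mul_le_mul_left _ (Nat.one_le_two_pow)
  have hc3 : ∀ n, 2 * (4 * (n ^ c + c) + 4) ^ 2 * (2 ^ k n * ℓ n) ≤ P n * 2 ^ k n := fun n => by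
    have h1 : 2 * (4 * (n ^ c + c) + 4) ^ 2 * ℓ n ≤ P n := by
      calc 2 * (4 * (n ^ c + c) + 4) ^ 2 * ℓ n ≤ 2 * (B n ^ e1) ^ 2 * B n ^ 2 :=
            Nat.mul_le_mul (Nat.mul_le_mul_left _ (Nat.pow_le_pow_left (hM1 n) 2)) (hℓB n)
        _ = 2 * B n ^ (2 * e1 + 2) := by ring
        _ ≤ B n * B n ^ (2 * e1 + 2) := Nat.mul_le_mul_right _ (by have := hB4 n; omega)
        _ = B n ^ e2 := by rw [← pow_succ']
        _ ≤ P n := (hP1 n).le
    calc 2 * (4 * (n ^ c + c) + 4) ^ 2 * (2 ^ k n * ℓ n) =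
        (2 * (4 * (n ^ c + c) + 4) ^ 2 * ℓ n) * 2 ^ k n := by ring
      _ ≤ _ := Nat.mul_le_mul_right _ h1
  have hc5 : ∀ n, 2 ^ ℓ n ≤ (P n * 2 ^ k n) ^ e4 := fun n => by
    rw [h2ℓ]
    exact Nat.pow_le_pow_left (hBP n) _
  -- polynomial bounds
  have bB : PB B := by
    refine ((PB.const (2 ^ (e4 + 2))).mul (((PB.const 2).mul PB.id).add (PB.const 1))).le
      fun n => ?_
    simp only [hB, hs]
    rw [show n.size + e4 + 2 = (e4 + 2) + n.size by omega, pow_add]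
    exact Nat.mul_le_mul_left _ (two_pow_size_le n)
  have bP : PB P := ((PB.const 2).mul (bB.pow e2)).le hP2
  have bQ : PB (fun n => 2 ^ k n) := ((PB.const 4).mul (bB.pow e2)).le hk2
  have bℓ : PB ℓ := (bB.pow 2).le hℓB
  have bM : PB (fun n => 4 * (n ^ c + c) + 4) := (bB.pow e1).le hM1
  have bA : PB (fun n => n ^ c + c) := (PB.id.pow c).add (PB.const c)
  have bT : PB (fun n => P n * 2 ^ k n) := bP.mul bQ
  have bS : ∀ {F : ℕ → ℕ}, PB F → PB (fun n => (2 * F n + 1) ^ 4) := fun {F} hF =>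
    (((PB.const 2).mul hF).add (PB.const 1)).pow 4
  set G1 : ℕ → ℕ := fun n => 2 ^ 10 * ((2 * (n ^ c + c) + 1) ^ 4 * ((2 * P n + 1) ^ 4 *
    ((2 * 2 ^ k n + 1) ^ 4 * ((2 * ℓ n + 1) ^ 4 * (2 * (4 * (n ^ c + c) + 4) + 1) ^ 4)))) with hG1
  set G2 : ℕ → ℕ := fun n => 2 ^ 6 * ((2 * P n + 1) ^ 4 * ((2 * 2 ^ k n + 1) ^ 4 *
    (B n ^ e4) ^ 4)) with hG2
  have bG1 : PB G1 := (PB.const _).mul ((bS bA).mul ((bS bP).mul ((bS bQ).mul ((bS bℓ).mul
    (bS bM)))))
  have bG2 : PB G2 := (PB.const _).mul ((bS bP).mul ((bS bQ).mul ((bB.pow e4).pow 4)))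
  obtain ⟨b, hb⟩ := ((bT.add bG1).add bG2).bound
  refine ⟨b, XX f g E e4, XX_poly hfp hgp hEp e4, fun n => ?_⟩
  obtain ⟨a, ha, V, t, hVC, hVW, hV⟩ := hvote n
  have hbn := hb n
  have ha' : num (bits ((a, (P n, (2 ^ k n, (ℓ n, 4 * (n ^ c + c) + 4)))) : Prm)) ≤ G1 n := by
    refine (num_prm_le _ _ _ _ _).trans ?_
    simp only [hG1]
    refine Nat.mul_le_mul_left _ (Nat.mul_le_mul ?_ (Nat.mul_le_mul ?_ (Nat.mul_le_mul ?_
      (Nat.mul_le_mul ?_ ?_))))
    · exact Nat.pow_le_pow_left ((two_pow_size_le a).trans (by omega)) 4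
    · exact Nat.pow_le_pow_left (two_pow_size_le _) 4
    · exact Nat.pow_le_pow_left (two_pow_size_le _) 4
    · exact Nat.pow_le_pow_left (two_pow_size_le _) 4
    · exact Nat.pow_le_pow_left (two_pow_size_le _) 4
  refine ⟨P n * 2 ^ k n, num (bits ((a, (P n, (2 ^ k n, (ℓ n, 4 * (n ^ c + c) + 4)))) : Prm)),
    by omega, by omega, fun qs hqs hlen => ?_⟩
  have hX : XX f g E e4 (qs, num (bits ((a, (P n, (2 ^ k n, (ℓ n, 4 * (n ^ c + c) + 4)))) : Prm))) =
      idx (P n) (2 ^ k n) (pad qs.length (ℓ n) (fu f g E e4 qs a (P n) (2 ^ k n) (ℓ n)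
        (4 * (n ^ c + c) + 4))) := by
    unfold XX
    simp only [decA_num]
  rw [hX]
  refine ⟨?_, ?_⟩
  · have h1 := idx_le (P n) (2 ^ k n) (ℓ n) (pad qs.length (ℓ n) (fu f g E e4 qs a (P n) (2 ^ k n)
      (ℓ n) (4 * (n ^ c + c) + 4))) pad_length_le
    have h2 : 2 ^ 6 * ((2 ^ (P n).size) ^ 4 * ((2 ^ (2 ^ k n).size) ^ 4 * (2 ^ ℓ n) ^ 4)) ≤
        G2 n := by
      simp only [hG2]
      rw [h2ℓ]
      refine Nat.mul_le_mul_left _ (Nat.mul_le_mul ?_ (Nat.mul_le_mul ?_ le_rfl))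
      · exact Nat.pow_le_pow_left (two_pow_size_le _) 4
      · exact Nat.pow_le_pow_left (two_pow_size_le _) 4
    omega
  · rw [vec_eq, ← hqs]
    have hT0 : 0 < qs.length := by
      rw [hqs]
      exact Nat.mul_pos (hPp n).pos (by positivity)
    refine ans_ne (f := f) (g := g) (E := E) hEC hVC hVW
      (fun y hy => hV y (hlen y hy)) hT0 (lv_length _ _ _ _) ?_
    refine fu_spec (hPp n) (hPk n) hqs (hc2 n) (hc3 n) ?_ ?_
    · -- the number of candidates
      have h1 : sz (qs, a) ≤ (Polynomial.X ^ (2 * e2 + 3) * (Polynomial.C 4 * Polynomial.X + 2)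
          + 1 + (Polynomial.C 4 * (Polynomial.X ^ c + Polynomial.C c) + 1) + 1 :
          Polynomial ℕ).eval (B n) := by
        rw [sz_pair]
        have h2 := sz_le_length_mul qs (4 * n + 1) (fun y hy => by
          have := sz_listBool_le y
          have := hlen y hy
          omega)
        have h3 := sz_nat_le a
        have h4 := NPC.Poly.size_le_self a
        have h5 : qs.length * (4 * n + 1 + 1) ≤ B n ^ (2 * e2 + 3) * (4 * B n + 2) := by
          rw [hqs]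
          exact Nat.mul_le_mul (hT1 n) (by have := hBn n; omega)
        have h6 : n ^ c ≤ B n ^ c := Nat.pow_le_pow_left (hBn n) c
        simp only [Polynomial.eval_add, Polynomial.eval_mul, Polynomial.eval_C, Polynomial.eval_X,
          Polynomial.eval_pow, Polynomial.eval_ofNat, Polynomial.eval_one]
        omega
      have h2 : (hh f g E a qs).length < B n ^ e3 := by
        refine lt_of_lt_of_le (length_lt_sz _) ((hp (qs, a)).trans ((eval_mono p h1).trans ?_))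
        rw [← Polynomial.eval_comp]
        exact he3 _ (by have := hB4 n; omega)
      rw [h2ℓ]
      calc (hh f g E a qs).length * (2 * (4 * (n ^ c + c) + 4) ^ 2) ≤
          B n ^ e3 * (2 * (B n ^ e1) ^ 2) :=
            Nat.mul_le_mul h2.le (Nat.mul_le_mul_left _ (Nat.pow_le_pow_left (hM1 n) 2))
        _ = 2 * B n ^ (e3 + 2 * e1) := by ring
        _ < B n * B n ^ (e3 + 2 * e1) :=
          Nat.mul_lt_mul_of_pos_right (by have := hB4 n; omega) (pow_pos (hB0 n) _)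
        _ = B n ^ (e3 + 2 * e1 + 1) := by rw [← pow_succ']
        _ ≤ B n ^ e4 := Nat.pow_le_pow_right (hB0 n) (by omega)
    · rw [hqs]
      exact hc5 n

end Pool.Agent.TH682.VC
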