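import Pool.Agent.TH682.VC.Fam

/-!
# The exclusion algorithm for votes
-/

set_option autoImplicit false

namespace Pool.Agent.TH682.VC

open Pool.Agent.NPC Pool.Agent.H579R2.Spt Pool.Agent.H251R5.PQ
open Pool.Agent.TH684.EX (Exc poly_of_polyTime p_eq_np_of_exc)
open Pool.Agent.W901.FH (pow_upolyc)

/-- All questions for the strings `qs`. -/
def QQ (f : List Bool → List (List Bool)) (a : ℕ) (qs : List (List Bool)) : List (List Bool) :=
  qs.flatMap (fun y => f (bits (y, a)))

/-- The answer recorded in the table `t`. -/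
def lk (t : List (List Bool × Bool)) (q : List Bool) : Bool :=
  (((t.filter (fun p => decide (p.1 = q))).head?).getD ([], false)).2

theorem zip_answers (h : Set (List Bool)) : ∀ (Q : List (List Bool)),
    ∀ p ∈ Q.zip (answers h Q), (p.2 = true ↔ p.1 ∈ h) := by
  classical
  intro Q
  induction Q with
  | nil => intro p hp; simp [answers] at hp
  | cons x Q ih =>
    intro p hp
    unfold answers at hp ih
    rw [List.map_cons, List.zip_cons_cons, List.mem_cons] at hp
    rcases hp with rfl | hp
    · simp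
    · exact ih p hp

theorem exists_zip_answers (h : Set (List Bool)) : ∀ (Q : List (List Bool)), ∀ q ∈ Q,
    ∃ p ∈ Q.zip (answers h Q), p.1 = q := by
  classical
  intro Q
  induction Q with
  | nil => intro q hq; simp at hq
  | cons x Q ih =>
    intro q hq
    unfold answers at ih ⊢
    rw [List.map_cons, List.zip_cons_cons]
    rcases List.mem_cons.1 hq with rfl | hq
    · exact ⟨_, List.mem_cons_self, rfl⟩
    · obtain ⟨p, hp, hpq⟩ := ih q hq
      exact ⟨p, List.mem_cons_of_mem _ hp, hpq⟩

theorem lk_zip (h : Set (List Bool)) (Q : List (List Bool)) (q : List Bool) (hq : q ∈ Q) :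
    (lk (Q.zip (answers h Q)) q = true ↔ q ∈ h) := by
  classical
  have h0 := zip_answers h Q
  have h1 := exists_zip_answers h Q q hq
  obtain ⟨p, hp, hpq⟩ := h1
  have h2 : p ∈ (Q.zip (answers h Q)).filter (fun p => decide (p.1 = q)) :=
    List.mem_filter.2 ⟨hp, by simpa using hpq⟩
  unfold lk
  rcases hh : (Q.zip (answers h Q)).filter (fun p => decide (p.1 = q)) with _ | ⟨t, ts⟩
  · rw [hh] at h2
    simp at h2
  · have h3 : t ∈ (Q.zip (answers h Q)).filter (fun p => decide (p.1 = q)) := by rw [hh]; simp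
    obtain ⟨h4, h5⟩ := List.mem_filter.1 h3
    have h6 := h0 t h4
    rw [decide_eq_true_eq] at h5
    rw [hh, ← h5, ← h6]
    rfl

/-- The vector of a voter with the answers `e` to all questions. -/
def vv (f : List Bool → List (List Bool)) (g : List Bool → List Bool) (a : ℕ)
    (qs : List (List Bool)) (e : List Bool) : List Bool :=
  qs.map (fun y => decide (g (bits ((y, a), (f (bits (y, a))).map (lk ((QQ f a qs).zip e)))) =
    [true]))

/-- All candidate voters. -/
def hh (f : List Bool → List (List Bool)) (g : List Bool → List Bool)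
    (E : List Bool → List (List Bool)) (a : ℕ) (qs : List (List Bool)) : List (List Bool) :=
  List.replicate qs.length true :: (E (bits (QQ f a qs))).map (vv f g a qs)

/-- The string found. -/
def fu (f : List Bool → List (List Bool)) (g : List Bool → List Bool)
    (E : List Bool → List (List Bool)) (K : ℕ) (qs : List (List Bool)) (a P Q ℓ M : ℕ) : ℕ :=
  (((List.range (qs.length ^ K)).filter (fun l => (hh f g E a qs).all (fun h =>
    chk qs.length M (lv P Q qs.length (pad qs.length ℓ l)) h))).head?).getD 0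

theorem vv_answers (f : List Bool → List (List Bool)) (g : List Bool → List Bool) (a : ℕ)
    (qs : List (List Bool)) (h : Set (List Bool)) :
    vv f g a qs (answers h (QQ f a qs)) =
      qs.map (fun y => decide (g (bits ((y, a), answers h (f (bits (y, a))))) = [true])) := by
  classical
  unfold vv
  refine List.map_congr_left fun y hy => ?_
  have h1 : (f (bits (y, a))).map (lk ((QQ f a qs).zip (answers h (QQ f a qs)))) =
      answers h (f (bits (y, a))) := by
    unfold answers
    refine List.map_congr_left fun q hq => ?_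
    have h2 : q ∈ QQ f a qs := List.mem_flatMap.2 ⟨y, hy, hq⟩
    have h3 := lk_zip h (QQ f a qs) q h2
    by_cases h4 : q ∈ h
    · have h5 := h3.2 h4
      unfold answers at h5
      rw [h5]
      simp [h4]
    · have h5 : ¬ lk ((QQ f a qs).zip (answers h (QQ f a qs))) q = true := fun h6 => h4 (h3.1 h6)
      unfold answers at h5
      rw [Bool.not_eq_true] at h5
      rw [h5]
      simp [h4]
  rw [h1]

/-! ### Polynomial time -/

section poly

variable {α : Type} [TEnc α]

theorem lk_poly {t : α → List (List Bool × Bool)} {q : α → List Bool} (ht : Poly t) (hq : Poly q) :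
    Poly (fun x => lk (t x) (q x)) := by
  unfold lk
  exact NPC.Poly.snd (NPC.Poly.optGetD (NPC.Poly.head? (NPC.Poly.filter (l := t)
    (p := fun x p => decide (p.1 = q x)) ht (NPC.Poly.decide_eq
      (NPC.Poly.fst (NPC.Poly.snd NPC.Poly.id)) (hq.comp (NPC.Poly.fst NPC.Poly.id)))))
        (NPC.Poly.const _))

variable {f : List Bool → List (List Bool)} {g : List Bool → List Bool}
  {E : List Bool → List (List Bool)}

theorem QQ_poly (hf : Poly f) {a : α → ℕ} {qs : α → List (List Bool)} (ha : Poly a)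
    (hqs : Poly qs) : Poly (fun x => QQ f (a x) (qs x)) :=
  NPC.Poly.flatMap (l := qs) (F := fun x y => f (bits (y, a x))) hqs
    (hf.comp (bits_poly.comp (NPC.Poly.pair (NPC.Poly.snd NPC.Poly.id)
      (ha.comp (NPC.Poly.fst NPC.Poly.id)))))

theorem vv_poly (hf : Poly f) (hg : Poly g) {a : α → ℕ} {qs : α → List (List Bool)}
    {e : α → List Bool} (ha : Poly a) (hqs : Poly qs) (he : Poly e) :
    Poly (fun x => vv f g (a x) (qs x) (e x)) := by
  have hz : Poly (fun x => (QQ f (a x) (qs x)).zip (e x)) := NPC.Poly.zip (QQ_poly hf ha hqs) he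
  have e1 : Poly (fun p : α × List Bool => p.1) := NPC.Poly.fst NPC.Poly.id
  have e2 : Poly (fun p : α × List Bool => p.2) := NPC.Poly.snd NPC.Poly.id
  have h0 : Poly (fun p : α × List Bool => (p.2, a p.1)) := NPC.Poly.pair e2 (ha.comp e1)
  have h1 : Poly (fun p : α × List Bool => f (bits (p.2, a p.1))) := hf.comp (bits_poly.comp h0)
  have h2 : Poly (fun p : α × List Bool => (f (bits (p.2, a p.1))).map
      (lk ((QQ f (a p.1) (qs p.1)).zip (e p.1)))) :=
    NPC.Poly.map (l := fun p : α × List Bool => f (bits (p.2, a p.1)))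
      (F := fun p q => lk ((QQ f (a p.1) (qs p.1)).zip (e p.1)) q) h1
      (lk_poly (hz.comp (NPC.Poly.fst (NPC.Poly.fst NPC.Poly.id))) (NPC.Poly.snd NPC.Poly.id))
  exact NPC.Poly.map (l := qs) (F := fun x y => decide (g (bits ((y, a x),
    (f (bits (y, a x))).map (lk ((QQ f (a x) (qs x)).zip (e x))))) = [true])) hqs
    (NPC.Poly.decide_eq (hg.comp (bits_poly.comp (NPC.Poly.pair h0 h2))) (NPC.Poly.const _))

theorem hh_poly (hf : Poly f) (hg : Poly g) (hE : Poly E) {a : α → ℕ}
    {qs : α → List (List Bool)} (ha : Poly a) (hqs : Poly qs) :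
    Poly (fun x => hh f g E (a x) (qs x)) := by
  refine NPC.Poly.cons ?_ ?_
  · exact (NPC.Poly.map (l := qs) (F := fun _ _ => true) hqs (NPC.Poly.const true)).congr
      fun x => by simp
  · refine NPC.Poly.map (l := fun x => E (bits (QQ f (a x) (qs x))))
      (F := fun x e => vv f g (a x) (qs x) e) (hE.comp (bits_poly.comp (QQ_poly hf ha hqs))) ?_
    have e1 : Poly (fun p : α × List Bool => p.1) := NPC.Poly.fst NPC.Poly.id
    exact vv_poly hf hg (ha.comp e1) (hqs.comp e1) (NPC.Poly.snd NPC.Poly.id)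

theorem agl_poly {u v : α → List Bool} (hu : Poly u) (hv : Poly v) :
    Poly (fun x => agl (u x) (v x)) := by
  refine NPC.Poly.length (NPC.Poly.filter (l := fun x => (u x).zip (v x))
    (p := fun _ p => decide (p.1 = p.2)) (NPC.Poly.zip hu hv) ?_)
  exact NPC.Poly.decide_eq (NPC.Poly.fst (NPC.Poly.snd NPC.Poly.id))
    (NPC.Poly.snd (NPC.Poly.snd NPC.Poly.id))

theorem chk_poly {T M : α → ℕ} {u v : α → List Bool} (hT : Poly T) (hM : Poly M) (hu : Poly u)
    (hv : Poly v) : Poly (fun x => chk (T x) (M x) (u x) (v x)) := by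
  have h1 := NPC.Poly.mul (NPC.Poly.const (α := α) 2) (agl_poly hu hv)
  exact NPC.Poly.and (NPC.Poly.decide_lt (NPC.Poly.mul hM (NPC.Poly.sub h1 hT)) hT)
    (NPC.Poly.decide_lt (NPC.Poly.mul hM (NPC.Poly.sub hT h1)) hT)

theorem lv_poly {P Q T : α → ℕ} {u : α → List Bool} (hP : Poly P) (hQ : Poly Q) (hT : UPoly T)
    (hu : Poly u) : Poly (fun x => lv (P x) (Q x) (T x) (u x)) := by
  have e1 : Poly (fun p : α × ℕ => p.1) := NPC.Poly.fst NPC.Poly.id
  have e2 : Poly (fun p : α × ℕ => p.2) := NPC.Poly.snd NPC.Poly.id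
  exact NPC.Poly.map (l := fun x => List.range (T x))
    (F := fun x i => lab (P x) (i / Q x, i % Q x) (u x)) hT.range
    (lab_poly (hP.comp e1) (NPC.Poly.pair (NPC.Poly.div e2 (hQ.comp e1))
      (NPC.Poly.mod e2 (hQ.comp e1))) (hu.comp e1))

theorem pad_poly {T ℓ l : α → ℕ} (hT : UPoly T) (hℓ : Poly ℓ) (hl : Poly l) :
    Poly (fun x => pad (T x) (ℓ x) (l x)) := by
  refine take_poly' (NPC.Poly.append (NPC.Poly.natBits hl) ?_) hℓ
  exact (NPC.Poly.map (l := fun x => List.replicate (T x) ()) (F := fun _ _ => false) hT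
    (NPC.Poly.const false)).congr fun x => by simp

theorem fu_poly (hf : Poly f) (hg : Poly g) (hE : Poly E) (K : ℕ) {qs : α → List (List Bool)}
    {a P Q ℓ M : α → ℕ} (hqs : Poly qs) (ha : Poly a) (hP : Poly P) (hQ : Poly Q) (hℓ : Poly ℓ)
    (hM : Poly M) : Poly (fun x => fu f g E K (qs x) (a x) (P x) (Q x) (ℓ x) (M x)) := by
  have hT : UPoly (fun x => (qs x).length) := UPoly.length hqs
  have e1 : Poly (fun p : α × ℕ => p.1) := NPC.Poly.fst NPC.Poly.id
  have e2 : Poly (fun p : α × ℕ => p.2) := NPC.Poly.snd NPC.Poly.id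
  have f1 : Poly (fun p : (α × ℕ) × List Bool => p.1) := NPC.Poly.fst NPC.Poly.id
  have f2 : Poly (fun p : (α × ℕ) × List Bool => p.2) := NPC.Poly.snd NPC.Poly.id
  refine NPC.Poly.optGetD (NPC.Poly.head? (NPC.Poly.filter
    (l := fun x => List.range ((qs x).length ^ K))
    (p := fun x l => (hh f g E (a x) (qs x)).all (fun h =>
      chk (qs x).length (M x) (lv (P x) (Q x) (qs x).length (pad (qs x).length (ℓ x) l)) h))
    (pow_upolyc hT K).range ?_)) (NPC.Poly.const 0)
  refine NPC.Poly.all (l := fun p : α × ℕ => hh f g E (a p.1) (qs p.1))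
    (p := fun p h => chk (qs p.1).length (M p.1)
      (lv (P p.1) (Q p.1) (qs p.1).length (pad (qs p.1).length (ℓ p.1) p.2)) h)
    ((hh_poly hf hg hE ha hqs).comp e1) ?_
  have h3 : Poly (fun p : α × ℕ => lv (P p.1) (Q p.1) (qs p.1).length
      (pad (qs p.1).length (ℓ p.1) p.2)) :=
    lv_poly (hP.comp e1) (hQ.comp e1) (hT.comp e1) (pad_poly (hT.comp e1) (hℓ.comp e1) e2)
  exact chk_poly ((hT.toPoly.comp e1).comp f1) ((hM.comp e1).comp f1) (h3.comp f1) f2

end poly

end Pool.Agent.TH682.VC
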