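import Pool.Agent.H579R2.Spt.Had2

/-!
# Few labels correlate with one given vector, and a vote has a voter that correlates with it
-/

set_option autoImplicit false

namespace Pool.Agent.TH682.VC

open Finset Pool.Agent.H579R2.Spt

theorem sgn_sq (b : Bool) : sgn b * sgn b = 1 := sgn_mul_self b

/-- Among nearly orthogonal sign vectors few have a large correlation with a given one. -/
theorem few {N : Type} [DecidableEq N] (T : ℕ) (S : Finset N) (lb : N → ℕ → Bool) (h : ℕ → Bool)
    (M E : ℤ) (hT : 0 < T) (hM : 0 ≤ M)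
    (horth : ∀ u ∈ S, ∀ v ∈ S, u ≠ v → |∑ i ∈ range T, sgn (lb u i) * sgn (lb v i)| ≤ E)
    (hbad : ∀ u ∈ S, (T : ℤ) ≤ M * |∑ i ∈ range T, sgn (lb u i) * sgn (h i)|)
    (hE0 : 0 ≤ E) (hE : 2 * M ^ 2 * E ≤ T) : (S.card : ℤ) ≤ 2 * M ^ 2 := by
  classical
  set c : N → ℤ := fun u => ∑ i ∈ range T, sgn (lb u i) * sgn (h i) with hc
  set σ : N → ℤ := fun u => if 0 ≤ c u then 1 else -1 with hσ
  have hσc : ∀ u, σ u * c u = |c u| := by
    intro u
    simp only [hσ]
    split_ifs with h0
    · rw [one_mul, abs_of_nonneg h0]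
    · rw [neg_one_mul, abs_of_neg (not_le.1 h0)]
  have hσσ : ∀ u, σ u * σ u = 1 := by
    intro u
    simp only [hσ]
    split_ifs <;> norm_num
  have hσ1 : ∀ u, |σ u| = 1 := by
    intro u
    simp only [hσ]
    split_ifs <;> norm_num
  set y : ℕ → ℤ := fun i => ∑ u ∈ S, σ u * sgn (lb u i) with hy
  set s : ℤ := (S.card : ℤ) with hs
  have hs0 : 0 ≤ s := Int.natCast_nonneg _
  have hT0 : (0 : ℤ) < T := by exact_mod_cast hT
  -- the sum of the correlations
  have h1 : s * T ≤ M * ∑ i ∈ range T, sgn (h i) * y i := by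
    have e1 : ∑ i ∈ range T, sgn (h i) * y i = ∑ u ∈ S, |c u| := by
      simp only [hy, Finset.mul_sum]
      rw [Finset.sum_comm]
      refine Finset.sum_congr rfl fun u _ => ?_
      rw [← hσc u, hc]
      simp only
      rw [Finset.mul_sum]
      exact Finset.sum_congr rfl fun i _ => by ring
    rw [e1, Finset.mul_sum]
    calc s * T = ∑ u ∈ S, (T : ℤ) := by simp [hs]
      _ ≤ _ := Finset.sum_le_sum fun u hu => hbad u hu
  have h2 : (∑ i ∈ range T, sgn (h i) * y i) ^ 2 ≤ T * ∑ i ∈ range T, y i ^ 2 := by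
    have e1 := Finset.sum_mul_sq_le_sq_mul_sq (range T) (fun i => sgn (h i)) y
    have e2 : ∑ i ∈ range T, sgn (h i) ^ 2 = T := by
      rw [Finset.sum_congr rfl (fun i _ => by rw [sq, sgn_mul_self])]
      simp
    rwa [e2] at e1
  have h3 : ∑ i ∈ range T, y i ^ 2 ≤ s * T + s * s * E := by
    have e0 : ∑ i ∈ range T, y i ^ 2 = ∑ u ∈ S, ∑ v ∈ S, σ u * σ v *
        ∑ i ∈ range T, sgn (lb u i) * sgn (lb v i) := by
      have e1 : ∀ i ∈ range T, y i ^ 2 = ∑ u ∈ S, ∑ v ∈ S,
          σ u * σ v * (sgn (lb u i) * sgn (lb v i)) := by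
        intro i _
        rw [sq, hy]
        simp only
        rw [Finset.sum_mul_sum]
        exact Finset.sum_congr rfl fun u _ => Finset.sum_congr rfl fun v _ => by ring
      rw [Finset.sum_congr rfl e1, Finset.sum_comm]
      refine Finset.sum_congr rfl fun u _ => ?_
      rw [Finset.sum_comm]
      exact Finset.sum_congr rfl fun v _ => by rw [Finset.mul_sum]
    rw [e0]
    have e2 : ∀ u ∈ S, ∑ v ∈ S, σ u * σ v * ∑ i ∈ range T, sgn (lb u i) * sgn (lb v i) ≤
        T + s * E := by
      intro u hu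
      have e3 : ∀ v ∈ S, σ u * σ v * ∑ i ∈ range T, sgn (lb u i) * sgn (lb v i) ≤
          (if v = u then (T : ℤ) else 0) + E := by
        intro v hv
        by_cases huv : v = u
        · subst huv
          have e4 : ∑ i ∈ range T, sgn (lb v i) * sgn (lb v i) = T := by
            rw [Finset.sum_congr rfl (fun i _ => sgn_mul_self (lb v i))]
            simp
          rw [if_pos rfl, e4, hσσ]
          linarith
        · rw [if_neg huv, zero_add]
          have e4 := horth u hu v hv (fun h => huv h.symm)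
          calc _ ≤ |σ u * σ v * ∑ i ∈ range T, sgn (lb u i) * sgn (lb v i)| := le_abs_self _
            _ = |∑ i ∈ range T, sgn (lb u i) * sgn (lb v i)| := by
              rw [abs_mul, abs_mul, hσ1, hσ1, one_mul, one_mul]
            _ ≤ E := e4
      refine (Finset.sum_le_sum e3).trans (le_of_eq ?_)
      rw [Finset.sum_add_distrib, Finset.sum_ite_eq' S u, if_pos hu]
      simp [hs]
    refine (Finset.sum_le_sum e2).trans (le_of_eq ?_)
    rw [Finset.sum_const, nsmul_eq_mul]
    ring
  rcases hs0.eq_or_lt with h0 | h0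
  · rw [← h0]
    positivity
  have hsT : 0 < s * T := mul_pos h0 hT0
  have h4 : (s * T) ^ 2 ≤ M ^ 2 * (T * (s * T + s * s * E)) := by
    have e1 : (s * T) ^ 2 ≤ (M * ∑ i ∈ range T, sgn (h i) * y i) ^ 2 :=
      pow_le_pow_left₀ hsT.le h1 2
    have e2 : (M * ∑ i ∈ range T, sgn (h i) * y i) ^ 2 =
        M ^ 2 * (∑ i ∈ range T, sgn (h i) * y i) ^ 2 := by ring
    have e3 : (∑ i ∈ range T, sgn (h i) * y i) ^ 2 ≤ T * (s * T + s * s * E) :=
      h2.trans (mul_le_mul_of_nonneg_left h3 hT0.le)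
    calc (s * T) ^ 2 ≤ _ := e1
      _ = _ := e2
      _ ≤ _ := mul_le_mul_of_nonneg_left e3 (by positivity)
  have h5 : (s * T) * (s * T) ≤ (s * T) * (M ^ 2 * (T + s * E)) := by
    calc (s * T) * (s * T) = (s * T) ^ 2 := by ring
      _ ≤ _ := h4
      _ = _ := by ring
  have h6 : s * T ≤ M ^ 2 * (T + s * E) := le_of_mul_le_mul_left h5 hsT
  have h7 : s * (2 * M ^ 2 * E) ≤ s * T := mul_le_mul_of_nonneg_left hE h0.le
  have h8 : s * T ≤ (2 * M ^ 2) * T := by nlinarith
  exact le_of_mul_le_mul_right h8 hT0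

/-- The total weight of a list of weighted voters. -/
def tw {α : Type} (V : List (ℤ × α)) : ℕ := (V.map (fun p => p.1.natAbs)).sum

theorem tw_cons {α : Type} (p : ℤ × α) (V : List (ℤ × α)) : tw (p :: V) = p.1.natAbs + tw V := by
  simp [tw]

/-- The correlation of a vector with a weighted vote is at most the total weight times the largest
correlation with a voter. -/
theorem vote_le (T : ℕ) (ε : ℕ → ℤ) (B : ℤ) : ∀ V : List (ℤ × (ℕ → Bool)),
    (∀ p ∈ V, |∑ i ∈ range T, ε i * sgn (p.2 i)| ≤ B) →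
    |∑ i ∈ range T, ε i * (V.map (fun p => p.1 * sgn (p.2 i))).sum| ≤ (tw V : ℤ) * B := by
  intro V
  induction V with
  | nil => intro _; simp [tw]
  | cons p V ih =>
    intro h
    have h1 := ih fun q hq => h q (List.mem_cons_of_mem _ hq)
    have h2 := h p (by simp)
    have h3 : ∑ i ∈ range T, ε i * ((p :: V).map (fun p => p.1 * sgn (p.2 i))).sum =
        p.1 * (∑ i ∈ range T, ε i * sgn (p.2 i)) +
          ∑ i ∈ range T, ε i * (V.map (fun p => p.1 * sgn (p.2 i))).sum := by
      rw [Finset.mul_sum, ← Finset.sum_add_distrib]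
      refine Finset.sum_congr rfl fun i _ => ?_
      rw [List.map_cons, List.sum_cons]
      ring
    rw [h3, tw_cons]
    refine (abs_add_le _ _).trans ?_
    rw [abs_mul]
    have h4 : |p.1| * |∑ i ∈ range T, ε i * sgn (p.2 i)| ≤ |p.1| * B :=
      mul_le_mul_of_nonneg_left h2 (abs_nonneg _)
    have h5 : |p.1| = (p.1.natAbs : ℤ) := Int.abs_eq_natAbs _
    have h6 : ((p.1.natAbs + tw V : ℕ) : ℤ) = (p.1.natAbs : ℤ) + tw V := by push_cast; rfl
    rw [h6, add_mul]
    rw [h5] at h4 ⊢
    exact add_le_add h4 h1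

theorem sum_map_sgn (V : List (ℤ × (ℕ → Bool))) (i : ℕ) :
    2 * (V.map (fun p => if p.2 i then p.1 else 0)).sum =
      (V.map (fun p => p.1 * sgn (p.2 i))).sum + (V.map Prod.fst).sum := by
  induction V with
  | nil => simp
  | cons p V ih =>
    simp only [List.map_cons, List.sum_cons]
    rw [mul_add, ih]
    cases p.2 i <;> simp [sgn] <;> ring

theorem abs_sum_le (V : List (ℤ × (ℕ → Bool))) : |(V.map Prod.fst).sum| ≤ (tw V : ℤ) := by
  induction V with
  | nil => simp [tw]
  | cons p V ih =>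
    rw [tw_cons]
    simp only [List.map_cons, List.sum_cons]
    refine (abs_add_le _ _).trans ?_
    have h5 : |p.1| = (p.1.natAbs : ℤ) := Int.abs_eq_natAbs _
    have h6 : ((p.1.natAbs + tw V : ℕ) : ℤ) = (p.1.natAbs : ℤ) + tw V := by push_cast; rfl
    rw [h6, h5]
    exact add_le_add le_rfl ih

theorem abs_vote_le (V : List (ℤ × (ℕ → Bool))) (i : ℕ) :
    |(V.map (fun p => if p.2 i then p.1 else 0)).sum| ≤ (tw V : ℤ) := by
  induction V with
  | nil => simp [tw]
  | cons p V ih =>
    rw [tw_cons]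
    simp only [List.map_cons, List.sum_cons]
    refine (abs_add_le _ _).trans ?_
    have h1 : |if p.2 i then p.1 else 0| ≤ |p.1| := by
      split_ifs
      · exact le_rfl
      · simp
    have h5 : |p.1| = (p.1.natAbs : ℤ) := Int.abs_eq_natAbs _
    have h6 : ((p.1.natAbs + tw V : ℕ) : ℤ) = (p.1.natAbs : ℤ) + tw V := by push_cast; rfl
    rw [h6, ← h5]
    exact add_le_add h1 ih

/-- **A vote of small weight has a voter that correlates with the result**, or the result correlates
with the constant. -/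
theorem exists_voter (T : ℕ) (hT : 0 < T) (V : List (ℤ × (ℕ → Bool))) (t : ℤ) (r : ℕ → Bool) (W : ℕ)
    (hW : tw V ≤ W)
    (hr : ∀ i < T, (r i = true ↔ t < (V.map (fun p => if p.2 i then p.1 else 0)).sum)) :
    ∃ h : ℕ → Bool, (h = (fun _ => true) ∨ ∃ p ∈ V, p.2 = h) ∧
      (T : ℤ) ≤ (4 * W + 4) * |∑ i ∈ range T, sgn (r i) * sgn (h i)| := by
  by_contra hcon
  push Not at hcon
  set M : ℤ := 4 * W + 4 with hM
  set B : ℤ := (T : ℤ) - 1 with hB
  have hT0 : (0 : ℤ) < T := by exact_mod_cast hT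
  have hM0 : 0 < M := by positivity
  have hW' : (tw V : ℤ) ≤ W := by exact_mod_cast hW
  have hW0 : (0 : ℤ) ≤ W := Int.natCast_nonneg _
  -- clamp the threshold
  set t' : ℤ := max (min t W) (-W - 1) with ht'
  have hr' : ∀ i < T, (r i = true ↔ t' < (V.map (fun p => if p.2 i then p.1 else 0)).sum) := by
    intro i hi
    rw [hr i hi]
    have h1 := abs_vote_le V i
    rw [abs_le] at h1
    generalize (V.map (fun p => if p.2 i then p.1 else 0)).sum = F at *
    rw [ht']
    constructor
    · intro h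
      simp only [max_lt_iff, min_lt_iff]
      omega
    · intro h
      simp only [max_lt_iff, min_lt_iff] at h
      omega
  have htb : |t'| ≤ W + 1 := by
    rw [ht', abs_le]
    constructor
    · exact le_trans (by omega) (le_max_right _ _)
    · exact max_le (le_trans (min_le_right _ _) (by omega)) (by omega)
  set ε : ℕ → ℤ := fun i => M * sgn (r i) with hε
  have hc : ∀ h : ℕ → Bool, (h = (fun _ => true) ∨ ∃ p ∈ V, p.2 = h) →
      |∑ i ∈ range T, ε i * sgn (h i)| ≤ B := by
    intro h hh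
    have h1 := hcon h hh
    have h2 : ∑ i ∈ range T, ε i * sgn (h i) = M * ∑ i ∈ range T, sgn (r i) * sgn (h i) := by
      rw [Finset.mul_sum]
      exact Finset.sum_congr rfl fun i _ => by simp only [hε]; ring
    rw [h2, abs_mul, abs_of_pos hM0]
    omega
  have h1 := vote_le T ε B V fun p hp => hc p.2 (Or.inr ⟨p, hp, rfl⟩)
  have h2 := hc (fun _ => true) (Or.inl rfl)
  -- lower bound
  have h3 : M * T ≤ ∑ i ∈ range T, ε i *
      (2 * (V.map (fun p => if p.2 i then p.1 else 0)).sum - 2 * t' - 1) := by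
    calc M * T = ∑ i ∈ range T, M := by simp; ring
      _ ≤ _ := Finset.sum_le_sum fun i hi => ?_
    have h4 := hr' i (Finset.mem_range.1 hi)
    generalize (V.map (fun p => if p.2 i then p.1 else 0)).sum = F at *
    simp only [hε]
    cases hri : r i
    · rw [hri] at h4
      simp only [Bool.false_eq_true, false_iff, not_lt] at h4
      simp only [sgn, Bool.false_eq_true, if_false]
      nlinarith
    · rw [hri] at h4
      simp only [true_iff] at h4
      simp only [sgn, if_true]
      nlinarith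
  have h4 : ∑ i ∈ range T, ε i *
      (2 * (V.map (fun p => if p.2 i then p.1 else 0)).sum - 2 * t' - 1) =
      ∑ i ∈ range T, ε i * (V.map (fun p => p.1 * sgn (p.2 i))).sum +
        ((V.map Prod.fst).sum - 2 * t' - 1) * ∑ i ∈ range T, ε i * sgn true := by
    rw [Finset.mul_sum, ← Finset.sum_add_distrib]
    refine Finset.sum_congr rfl fun i _ => ?_
    rw [sum_map_sgn]
    simp only [sgn, if_true]
    ring
  have h5 : |(V.map Prod.fst).sum - 2 * t' - 1| ≤ 3 * W + 3 := by
    have e1 := abs_sum_le V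
    rw [abs_le] at e1 htb ⊢
    constructor <;> omega
  have hB0 : 0 ≤ B := by omega
  have h6 : ((V.map Prod.fst).sum - 2 * t' - 1) * ∑ i ∈ range T, ε i * sgn true ≤
      (3 * W + 3) * B := by
    refine (le_abs_self _).trans ?_
    rw [abs_mul]
    exact mul_le_mul h5 h2 (abs_nonneg _) (by positivity)
  have h7 : ∑ i ∈ range T, ε i * (V.map (fun p => p.1 * sgn (p.2 i))).sum ≤ W * B := by
    refine (le_abs_self _).trans (h1.trans ?_)
    exact mul_le_mul_of_nonneg_right hW' hB0
  rw [h4] at h3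
  have h8 : M * T ≤ W * B + (3 * W + 3) * B := h3.trans (add_le_add h7 h6)
  have h9 : (W : ℤ) * B + (3 * W + 3) * B = (4 * W + 3) * B := by ring
  rw [h9] at h8
  nlinarith

/-- Sums over a product as sums over an interval. -/
theorem sum_div_mod (P Q : ℕ) (hQ : 0 < Q) (F : ℕ → ℕ → ℤ) :
    ∑ i ∈ range (P * Q), F (i / Q) (i % Q) = ∑ t ∈ range P ×ˢ range Q, F t.1 t.2 := by
  refine Finset.sum_nbij' (fun i => (i / Q, i % Q)) (fun t => t.1 * Q + t.2) ?_ ?_ ?_ ?_ ?_
  · intro i hi
    rw [Finset.mem_range] at hi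
    rw [Finset.mem_product, Finset.mem_range, Finset.mem_range]
    exact ⟨Nat.div_lt_of_lt_mul (by rwa [mul_comm]), Nat.mod_lt _ hQ⟩
  · intro t ht
    rw [Finset.mem_product, Finset.mem_range, Finset.mem_range] at ht
    rw [Finset.mem_range]
    calc t.1 * Q + t.2 < t.1 * Q + Q := by omega
      _ = (t.1 + 1) * Q := by ring
      _ ≤ P * Q := Nat.mul_le_mul_right _ ht.1
  · intro i _
    exact Nat.div_add_mod' i Q
  · intro t ht
    rw [Finset.mem_product, Finset.mem_range, Finset.mem_range] at ht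
    ext
    · show (t.1 * Q + t.2) / Q = t.1
      rw [mul_comm, Nat.mul_add_div hQ, Nat.div_eq_of_lt ht.2, add_zero]
    · show (t.1 * Q + t.2) % Q = t.2
      rw [mul_comm, Nat.mul_add_mod, Nat.mod_eq_of_lt ht.2]
  · intro i _
    rfl

end Pool.Agent.TH682.VC
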