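import Pool.Agent.H251R5.PQ.Cls

/-!
# Votes of simple concepts: definitions

A concept is a set of strings. Polynomial time is Mathlib's `Turing.TM2ComputableInPolyTime`
(through `Pool.Agent.NPC.PolyTime`).
-/

set_option autoImplicit false

namespace Pool.Agent.TH682.VC

open Pool.Agent.NPC Pool.Agent.H251R5.PQ

/-- The labelled sample `s` (a list of labelled strings) is consistent with some concept in `C`. -/
def Consistent (C : Set (Set (List Bool))) (s : List (List Bool × Bool)) : Prop :=
  ∃ h ∈ C, ∀ p ∈ s, (p.1 ∈ h ↔ p.2 = true)

/-- The VC dimension of the class `C` of concepts is at most `d`: every finite set of strings that is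
shattered by `C` has at most `d` elements. -/
def VCAtMost (C : Set (Set (List Bool))) (d : ℕ) : Prop :=
  ∀ F : Finset (List Bool), (∀ G ⊆ F, ∃ h ∈ C, ∀ x ∈ F, (x ∈ h ↔ x ∈ G)) → F.card ≤ d

/-- The class `C` of concepts can be enumerated: a polynomial-time algorithm computes, from any list
of strings, a list of vectors that contains the vector of the answers of every concept in `C`. -/
def Enumerable (C : Set (Set (List Bool))) : Prop :=
  ∃ E : List Bool → List (List Bool), PolyTime (fun z => bits (E z)) ∧
    ∀ h ∈ C, ∀ qs : List (List Bool), answers h qs ∈ E (bits qs)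

/-- The set `A` is decided by votes of concepts in `C`. There are polynomial-time functions `f` and
`g`, and for every `n` a number `a` (advice), at most `n ^ b + b`, a list `V` of weighted voters
(pairs of an integer weight and a concept in `C`) of total weight at most `n ^ b + b`, and a
threshold `t`, such that all strings `x` of length at most `n` satisfy: `x ∈ A` if and only if the
sum of the weights of the voters that vote for `x` is larger than `t`. The voter with the concept `h`
votes for `x` if `g` accepts `x`, `a` and the answers of `h` to the questions `f (x, a)`. The weights,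
the concepts and the threshold are arbitrary, and may depend on `n` in any way. -/
def Vote (C : Set (Set (List Bool))) (A : Set (List Bool)) : Prop :=
  ∃ (f : List Bool → List (List Bool)) (g : List Bool → List Bool) (b : ℕ),
    PolyTime (fun z => bits (f z)) ∧ PolyTime g ∧
    ∀ n : ℕ, ∃ a : ℕ, a ≤ n ^ b + b ∧ ∃ (V : List (ℤ × Set (List Bool))) (t : ℤ),
      (∀ v ∈ V, v.2 ∈ C) ∧ (V.map (fun v => v.1.natAbs)).sum ≤ n ^ b + b ∧
        ∀ x : List Bool, x.length ≤ n → (x ∈ A ↔ t < (V.map (fun v =>
          if g (bits ((x, a), answers v.2 (f (bits (x, a))))) = [true] then v.1 else 0)).sum)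

end Pool.Agent.TH682.VC
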