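import Pool.Agent.TH682.VC.Defs
import Pool.Agent.TH684.EX.Thm
import Pool.Agent.H579R2.Spt.Main2
import Mathlib.Combinatorics.SetFamily.Shatter

/-!
# Classes of finite VC dimension with an easy consistency problem can be enumerated
-/

set_option autoImplicit false

namespace Pool.Agent.TH682.VC

open Pool.Agent.NPC Pool.Agent.H579R2.Spt Pool.Agent.H251R5.PQ

/-- Samples. -/
abbrev Smp := List (List Bool × Bool)

/-- **Sauer's lemma.** -/
theorem traces_le {C : Set (Set (List Bool))} {d : ℕ} (hC : VCAtMost C d)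
    (F : Finset (List Bool)) (𝒜 : Finset (Finset (List Bool)))
    (h𝒜 : ∀ G ∈ 𝒜, G ⊆ F ∧ ∃ h ∈ C, ∀ x ∈ F, (x ∈ h ↔ x ∈ G)) :
    𝒜.card ≤ (d + 1) * (F.card + 1) ^ d := by
  classical
  refine (Finset.card_le_card_shatterer 𝒜).trans ?_
  have h1 : 𝒜.shatterer ⊆ (Finset.range (d + 1)).biUnion (fun k => F.powersetCard k) := by
    intro s hs
    rw [Finset.mem_shatterer] at hs
    have hsF : s ⊆ F := by
      obtain ⟨t, ht, hst⟩ := hs.exists_superset
      exact hst.trans (h𝒜 t ht).1
    have hsd : s.card ≤ d := by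
      refine hC s fun G hG => ?_
      obtain ⟨u, hu, hu2⟩ := hs hG
      obtain ⟨h, hh, hh2⟩ := (h𝒜 u hu).2
      refine ⟨h, hh, fun x hx => ?_⟩
      rw [hh2 x (hsF hx), ← hu2, Finset.mem_inter]
      exact ⟨fun h => ⟨hx, h⟩, fun h => h.2⟩
    refine Finset.mem_biUnion.2 ⟨s.card, Finset.mem_range.2 (by omega), ?_⟩
    exact Finset.mem_powersetCard.2 ⟨hsF, rfl⟩
  refine (Finset.card_le_card h1).trans (Finset.card_biUnion_le.trans ?_)
  calc ∑ k ∈ Finset.range (d + 1), (F.powersetCard k).card
      ≤ ∑ k ∈ Finset.range (d + 1), (F.card + 1) ^ d := by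
        refine Finset.sum_le_sum fun k hk => ?_
        rw [Finset.card_powersetCard]
        refine (Nat.choose_le_pow _ _).trans ((Nat.pow_le_pow_left (Nat.le_succ _) _).trans ?_)
        exact Nat.pow_le_pow_right (by omega) (by have := Finset.mem_range.1 hk; omega)
    _ = _ := by simp

theorem smp_eq {h : Set (List Bool)} {G : Finset (List Bool)} {s : Smp} {qs : List (List Bool)}
    (hs : s.map Prod.fst = qs) (hh : ∀ p ∈ s, (p.1 ∈ h ↔ p.2 = true))
    (hG : ∀ x ∈ qs, (x ∈ h ↔ x ∈ G)) : s = qs.map (fun q => (q, decide (q ∈ G))) := by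
  induction s generalizing qs with
  | nil =>
    rw [List.map_nil] at hs
    subst hs
    rfl
  | cons p s ih =>
    subst hs
    rw [List.map_cons, List.map_cons]
    have h1 := hh p List.mem_cons_self
    have h2 := hG p.1 (by simp)
    rw [← ih rfl (fun p hp => hh p (List.mem_cons_of_mem _ hp)) (fun x hx => hG x (by
      rw [List.map_cons]
      exact List.mem_cons_of_mem _ hx))]
    congr 1
    refine Prod.ext rfl ?_
    show p.2 = decide (p.1 ∈ G)
    rw [Bool.eq_iff_iff, decide_eq_true_iff, ← h1, h2]

/-- The number of consistent samples. -/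
theorem samples_le {C : Set (Set (List Bool))} {d : ℕ} (hC : VCAtMost C d) (S : List Smp)
    (hS : S.Nodup) (qs : List (List Bool))
    (hq : ∀ s ∈ S, Consistent C s ∧ s.map Prod.fst = qs) :
    S.length ≤ (d + 1) * (qs.length + 1) ^ d := by
  classical
  choose! c hc using fun s (hs : s ∈ S) => (hq s hs).1
  set F := qs.toFinset with hF
  set tr : Smp → Finset (List Bool) := fun s => F.filter (fun x => x ∈ c s) with htr
  have h1 : ∀ s ∈ S, s = qs.map (fun q => (q, decide (q ∈ tr s))) := by
    intro s hs
    refine smp_eq (hq s hs).2 (hc s hs).2 fun x hx => ?_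
    simp only [htr, Finset.mem_filter, hF, List.mem_toFinset]
    exact ⟨fun h => ⟨hx, h⟩, fun h => h.2⟩
  have h2 : S.toFinset.card = (S.toFinset.image tr).card := by
    refine (Finset.card_image_of_injOn fun s hs s' hs' he => ?_).symm
    have he' : tr s = tr s' := he
    rw [h1 s (List.mem_toFinset.1 hs), h1 s' (List.mem_toFinset.1 hs'), he']
  rw [← List.toFinset_card_of_nodup hS, h2]
  refine (traces_le hC F _ ?_).trans ?_
  · intro G hG
    obtain ⟨s, hs, rfl⟩ := Finset.mem_image.1 hG
    refine ⟨Finset.filter_subset _ _, c s, (hc s (List.mem_toFinset.1 hs)).1, fun x hx => ?_⟩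
    simp only [htr, Finset.mem_filter]
    exact ⟨fun h => ⟨hx, h⟩, fun h => h.2⟩
  · refine Nat.mul_le_mul_left _ (Nat.pow_le_pow_left ?_ d)
    exact Nat.add_le_add_right (List.toFinset_card_le qs) 1

/-- One step of the enumeration. -/
def stp (V : List Bool → List Bool) (S : List Smp) (q : List Bool) : List Smp :=
  (S.flatMap (fun s => [(q, true) :: s, (q, false) :: s])).filter
    (fun s => decide (V (bits s) = [true]))

/-- The enumeration of the consistent samples. -/
def enm (V : List Bool → List Bool) (qs : List (List Bool)) : List Smp :=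
  qs.foldl (stp V) (if V (bits ([] : Smp)) = [true] then [[]] else [])

theorem enm_concat (V : List Bool → List Bool) (qs : List (List Bool)) (q : List Bool) :
    enm V (qs ++ [q]) = stp V (enm V qs) q := by
  unfold enm
  rw [List.foldl_append]
  rfl

theorem Consistent.tail {C : Set (Set (List Bool))} {p : List Bool × Bool} {s : Smp}
    (h : Consistent C (p :: s)) : Consistent C s := by
  obtain ⟨c, hc, hc2⟩ := h
  exact ⟨c, hc, fun p hp => hc2 p (List.mem_cons_of_mem _ hp)⟩

theorem enm_inv {C : Set (Set (List Bool))} {V : List Bool → List Bool}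
    (hV : ∀ s : Smp, Consistent C s ↔ V (bits s) = [true]) (qs : List (List Bool)) :
    (enm V qs).Nodup ∧ (∀ s ∈ enm V qs, Consistent C s ∧ s.map Prod.fst = qs.reverse) ∧
      ∀ s : Smp, Consistent C s → s.map Prod.fst = qs.reverse → s ∈ enm V qs := by
  induction qs using List.reverseRecOn with
  | nil =>
    unfold enm
    rw [List.foldl_nil]
    by_cases h : V (bits ([] : Smp)) = [true]
    · rw [if_pos h]
      refine ⟨by simp, fun s hs => ?_, fun s hs hs2 => ?_⟩
      · rw [List.mem_singleton] at hs
        subst hs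
        exact ⟨(hV _).2 h, rfl⟩
      · rw [List.reverse_nil, List.map_eq_nil_iff] at hs2
        rw [hs2]
        simp
    · rw [if_neg h]
      refine ⟨by simp, fun s hs => by simp at hs, fun s hs hs2 => ?_⟩
      rw [List.reverse_nil, List.map_eq_nil_iff] at hs2
      subst hs2
      exact absurd ((hV _).1 hs) h
  | append_singleton qs q ih =>
    obtain ⟨ih1, ih2, ih3⟩ := ih
    rw [enm_concat]
    unfold stp
    refine ⟨List.Nodup.filter _ ?_, fun s hs => ?_, fun s hs hs2 => ?_⟩
    · rw [List.nodup_flatMap]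
      refine ⟨fun s _ => by simp, ?_⟩
      refine ih1.imp ?_
      intro s s' hne
      simp only [Function.onFun, List.disjoint_iff_ne]
      intro a ha b hb hab
      subst hab
      refine hne ?_
      simp only [List.mem_cons, List.not_mem_nil, or_false] at ha hb
      rcases ha with rfl | rfl <;> rcases hb with h | h <;> simp_all
    · obtain ⟨h1, h2⟩ := List.mem_filter.1 hs
      obtain ⟨s', hs', h3⟩ := List.mem_flatMap.1 h1
      have h4 := (ih2 s' hs').2
      refine ⟨(hV s).2 (by simpa using h2), ?_⟩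
      simp only [List.mem_cons, List.not_mem_nil, or_false] at h3
      rcases h3 with rfl | rfl <;> simp [h4]
    · rw [List.reverse_append, List.reverse_singleton, List.singleton_append] at hs2
      rcases s with _ | ⟨p, s⟩
      · simp at hs2
      · rw [List.map_cons, List.cons.injEq] at hs2
        obtain ⟨h1, h2⟩ := hs2
        refine List.mem_filter.2 ⟨List.mem_flatMap.2 ⟨s, ih3 s hs.tail h2, ?_⟩,
          by simpa using (hV _).1 hs⟩
        obtain ⟨p1, p2⟩ := p
        simp only at h1
        subst h1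
        cases p2 <;> simp

theorem sz_smp_le (qs : List (List Bool)) : ∀ s : Smp, s.map Prod.fst = qs → sz s ≤ 4 * sz qs := by
  induction qs with
  | nil =>
    intro s hs
    rw [List.map_eq_nil_iff] at hs
    subst hs
    simp
  | cons q qs ih =>
    intro s hs
    rcases s with _ | ⟨p, s⟩
    · simp at hs
    · rw [List.map_cons, List.cons.injEq] at hs
      obtain ⟨h1, h2⟩ := hs
      have h3 := ih s h2
      have h4 := sz_bool_le p.2
      have h5 : sz p = sz p.1 + sz p.2 + 1 := sz_pair p.1 p.2
      rw [sz_list_cons, sz_list_cons, h5, h1]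
      have := sz_pos q
      omega

theorem stp_poly {V : List Bool → List Bool} (hV : Poly V) :
    Poly (fun p : List Smp × List Bool => stp V p.1 p.2) := by
  refine NPC.Poly.filter (l := fun p : List Smp × List Bool =>
    p.1.flatMap (fun s => [(p.2, true) :: s, (p.2, false) :: s]))
    (p := fun _ s => decide (V (bits s) = [true])) ?_
    (NPC.Poly.decide_eq (hV.comp (bits_poly.comp (NPC.Poly.snd NPC.Poly.id))) (NPC.Poly.const _))
  refine NPC.Poly.flatMap (l := fun p : List Smp × List Bool => p.1)
    (F := fun p s => [(p.2, true) :: s, (p.2, false) :: s]) (NPC.Poly.fst NPC.Poly.id) ?_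
  have e1 : Poly (fun p : (List Smp × List Bool) × Smp => p.1.2) :=
    NPC.Poly.snd (NPC.Poly.fst NPC.Poly.id)
  have e2 : Poly (fun p : (List Smp × List Bool) × Smp => p.2) := NPC.Poly.snd NPC.Poly.id
  exact NPC.Poly.cons (NPC.Poly.cons (NPC.Poly.pair e1 (NPC.Poly.const true)) e2)
    (NPC.Poly.cons (NPC.Poly.cons (NPC.Poly.pair e1 (NPC.Poly.const false)) e2)
      (NPC.Poly.const []))

theorem enm_poly {C : Set (Set (List Bool))} {d : ℕ} (hC : VCAtMost C d) {V : List Bool → List Bool}
    (hVp : Poly V) (hV : ∀ s : Smp, Consistent C s ↔ V (bits s) = [true]) :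
    Poly (fun z : List Bool => enm V (dl z)) := by
  obtain ⟨r, hr⟩ := dl_poly.sz_le
  refine NPC.Poly.foldl (l := fun z => dl z)
    (s := fun _ => if V (bits ([] : Smp)) = [true] then [[]] else [])
    (F := fun _ S q => stp V S q) dl_poly (NPC.Poly.const _)
    ((stp_poly hVp).comp (NPC.Poly.pair (NPC.Poly.fst (NPC.Poly.snd NPC.Poly.id))
      (NPC.Poly.snd (NPC.Poly.snd NPC.Poly.id))))
    (Polynomial.C (d + 1) * (r + 1) ^ d * (Polynomial.C 4 * r + 1) + 1) ?_
  intro z k _
  set qs := (dl z).take k with hqs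
  obtain ⟨h1, h2, _⟩ := enm_inv hV qs
  have h3 := samples_le hC _ h1 _ h2
  have hszq : sz qs ≤ r.eval (sz z) := (NPC.Poly.sz_take_le _ _).trans (hr z)
  have h4 : sz (enm V qs) ≤ (enm V qs).length * (4 * sz qs + 1) + 1 := by
    refine sz_le_length_mul _ _ fun s hs => ?_
    have := sz_smp_le _ s (h2 s hs).2
    rwa [sz_reverse] at this
  refine h4.trans ?_
  have h5 : qs.length < sz qs := length_lt_sz qs
  have h6 : (enm V qs).length ≤ (d + 1) * (r.eval (sz z) + 1) ^ d := by
    rw [List.length_reverse] at h3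
    exact h3.trans (Nat.mul_le_mul_left _ (Nat.pow_le_pow_left (by omega) d))
  simp only [Polynomial.eval_add, Polynomial.eval_mul, Polynomial.eval_C, Polynomial.eval_pow,
    Polynomial.eval_one]
  exact Nat.add_le_add_right (Nat.mul_le_mul h6 (by omega)) 1

/-- **Enumeration from the consistency problem.** -/
theorem enumerable_of_vc {C : Set (Set (List Bool))} {d : ℕ} (hcon : InPP (Consistent C))
    (hC : VCAtMost C d) : Enumerable C := by
  classical
  obtain ⟨V, hVt, hV⟩ := InPP.exists_test hcon
  have hVp : Poly V := PIso.poly_iff.2 hVt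
  refine ⟨fun z => (enm V (dl z)).map (fun s => (s.map Prod.snd).reverse), polyTime_bits ?_,
    fun h hh qs => ?_⟩
  · refine NPC.Poly.map (l := fun z : List Bool => enm V (dl z))
      (F := fun _ s => (s.map Prod.snd).reverse) (enm_poly hC hVp hV) (NPC.Poly.reverse ?_)
    exact NPC.Poly.map (l := fun p : List Bool × Smp => p.2) (F := fun _ q => q.2)
      (NPC.Poly.snd NPC.Poly.id) (NPC.Poly.snd (NPC.Poly.snd NPC.Poly.id))
  · show answers h qs ∈ (enm V (dl (bits qs))).map (fun s => (s.map Prod.snd).reverse)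
    rw [dl_bits]
    obtain ⟨_, _, h3⟩ := enm_inv hV qs
    refine List.mem_map.2 ⟨(qs.map (fun q => (q, decide (q ∈ h)))).reverse, h3 _ ?_ ?_, ?_⟩
    · refine ⟨h, hh, fun p hp => ?_⟩
      rw [List.mem_reverse, List.mem_map] at hp
      obtain ⟨q, _, rfl⟩ := hp
      simp
    · rw [List.map_reverse, List.map_map]
      congr 1
      exact (List.map_congr_left fun q _ => rfl).trans (List.map_id qs)
    · rw [List.map_reverse, List.reverse_reverse, List.map_map]
      rfl

end Pool.Agent.TH682.VC
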