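import Pool.Agent.TH682.VC.Corr
import Pool.Agent.TH682.VC.Defs
import Pool.Agent.TH684.EX.Thm
import Pool.Agent.H579R2.Spt.Main2

/-!
# The family of vectors, and the exclusion algorithm
-/

set_option autoImplicit false

namespace Pool.Agent.TH682.VC

open Pool.Agent.NPC Pool.Agent.H579R2.Spt Pool.Agent.H251R5.PQ
open Pool.Agent.TH684.EX (Exc poly_of_polyTime p_eq_np_of_exc)

/-! ### Numbers that code strings -/

/-- The number that codes a string. -/
def num (z : List Bool) : ℕ := valB (z ++ [true])

/-- The string coded by a number. -/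
def str (l : ℕ) : List Bool := l.bits.dropLast

theorem normB_aux (l : List Bool) : ∀ acc : List Bool, acc ≠ [] →
    l.foldl (fun acc b => if b = false ∧ acc = [] then [] else b :: acc) acc = l.reverse ++ acc := by
  induction l with
  | nil => intro acc _; rfl
  | cons b l ih =>
    intro acc h
    rw [List.foldl_cons, if_neg (by simp [h]), ih _ (by simp)]
    simp

theorem bits_num (z : List Bool) : (num z).bits = z ++ [true] := by
  rw [num, ← normB_eq]
  unfold normB
  rw [List.reverse_append, List.reverse_singleton, List.singleton_append, List.foldl_cons,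
    if_neg (by simp), normB_aux _ _ (by simp), List.reverse_reverse]

theorem str_num (z : List Bool) : str (num z) = z := by
  rw [str, bits_num, List.dropLast_concat]

theorem num_lt (z : List Bool) : num z < 2 ^ (z.length + 1) := by
  have := valB_lt (z ++ [true])
  rw [List.length_append, List.length_singleton] at this
  exact this

theorem num_poly : Poly num :=
  NPC.Poly.valBits (NPC.Poly.append NPC.Poly.id (NPC.Poly.const [true]))

theorem str_poly : Poly str := by
  have h : Poly (fun l : ℕ => (l.bits.reverse.tail).reverse) :=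
    NPC.Poly.reverse (NPC.Poly.tail (NPC.Poly.reverse (NPC.Poly.natBits NPC.Poly.id)))
  refine h.congr fun l => ?_
  rw [List.tail_reverse, List.reverse_reverse]
  rfl

/-- The vector number of the label vector of `u`. -/
def idx (P Q : ℕ) (u : List Bool) : ℕ := num (bits (P, (Q, u)))

/-- Decoding of a vector number. -/
def dec (l : ℕ) : ℕ × (ℕ × List Bool) := (unbits (ℕ × (ℕ × List Bool)) (str l)).getD (0, (0, []))

theorem dec_idx (P Q : ℕ) (u : List Bool) : dec (idx P Q u) = (P, (Q, u)) := by
  rw [dec, idx, str_num, unbits_bits]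
  rfl

theorem dec_poly : Poly dec :=
  NPC.Poly.optGetD (poly_unbits.comp str_poly) (NPC.Poly.const _)

/-- The family of vectors. -/
def lam (q : ℕ × (ℕ × ℕ)) : Bool :=
  lab (dec q.2.1).1 (q.2.2 / (dec q.2.1).2.1, q.2.2 % (dec q.2.1).2.1) (dec q.2.1).2.2

theorem lam_poly : Poly lam := by
  have e1 : Poly (fun q : ℕ × (ℕ × ℕ) => dec q.2.1) :=
    dec_poly.comp (NPC.Poly.fst (NPC.Poly.snd NPC.Poly.id))
  have e2 : Poly (fun q : ℕ × (ℕ × ℕ) => q.2.2) := NPC.Poly.snd (NPC.Poly.snd NPC.Poly.id)
  exact lab_poly (NPC.Poly.fst e1) (NPC.Poly.pair (NPC.Poly.div e2 (NPC.Poly.fst (NPC.Poly.snd e1)))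
    (NPC.Poly.mod e2 (NPC.Poly.fst (NPC.Poly.snd e1)))) (NPC.Poly.snd (NPC.Poly.snd e1))

/-- The number `l` as a string of length `ℓ` (if it is small enough). -/
def pad (T ℓ l : ℕ) : List Bool := (l.bits ++ List.replicate T false).take ℓ

theorem pad_length {T ℓ l : ℕ} (h : ℓ ≤ T) : (pad T ℓ l).length = ℓ := by
  rw [pad, List.length_take, List.length_append, List.length_replicate]
  omega

theorem pad_length_le {T ℓ l : ℕ} : (pad T ℓ l).length ≤ ℓ := by
  rw [pad, List.length_take]
  omega

theorem valB_zeros : ∀ n : ℕ, valB (List.replicate n false) = 0 := by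
  intro n
  induction n with
  | zero => rfl
  | succ n ih =>
    rw [List.replicate_succ]
    have : valB (false :: List.replicate n false) = 2 * valB (List.replicate n false) := by
      have := valB_append [false] (List.replicate n false)
      simpa [valB] using this
    rw [this, ih]

theorem valB_pad {T ℓ l : ℕ} (hl : l < 2 ^ ℓ) : valB (pad T ℓ l) = l := by
  have h1 : l.bits.length ≤ ℓ := by
    rw [Nat.size_eq_bits_len]
    exact Nat.size_le.2 hl
  rw [pad, List.take_append, List.take_of_length_le h1, List.take_replicate, valB_append,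
    valB_zeros, valB_bits]
  simp

theorem pad_inj {T ℓ l l' : ℕ} (hl : l < 2 ^ ℓ) (hl' : l' < 2 ^ ℓ) (h : pad T ℓ l = pad T ℓ l') :
    l = l' := by
  have := congrArg valB h
  rwa [valB_pad hl, valB_pad hl'] at this

/-! ### Agreements -/

/-- The number of agreements. -/
def agl (u v : List Bool) : ℕ := ((u.zip v).filter (fun p => decide (p.1 = p.2))).length

/-- The vectors `u` and `v` of length `T` have a correlation less than `T / M`. -/
def chk (T M : ℕ) (u v : List Bool) : Bool :=
  decide (M * (2 * agl u v - T) < T) && decide (M * (T - 2 * agl u v) < T)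

theorem agl_sum : ∀ u v : List Bool, u.length = v.length →
    ∑ i ∈ Finset.range u.length, sgn (u.getD i false) * sgn (v.getD i false) =
      2 * (agl u v : ℤ) - u.length := by
  intro u
  induction u with
  | nil => intro v _; simp [agl]
  | cons x u ih =>
    intro v hv
    cases v with
    | nil => simp at hv
    | cons y v =>
      have h1 := ih v (by simpa using hv)
      rw [List.length_cons, Finset.sum_range_succ']
      simp only [List.getD_cons_succ, List.getD_cons_zero]
      rw [h1]
      have h2 : agl (x :: u) (y :: v) = (if x = y then 1 else 0) + agl u v := by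
        unfold agl
        rw [List.zip_cons_cons, List.filter_cons]
        by_cases hxy : x = y <;> simp [hxy] <;> omega
      rw [h2]
      cases x <;> cases y <;> simp [sgn] <;> ring

theorem chk_iff {T M : ℕ} {u v : List Bool} (hu : u.length = T) (hv : v.length = T) :
    chk T M u v = true ↔
      (M : ℤ) * |∑ i ∈ Finset.range T, sgn (u.getD i false) * sgn (v.getD i false)| < T := by
  have h1 := agl_sum u v (hu.trans hv.symm)
  rw [hu] at h1
  rw [h1]
  unfold chk
  rw [Bool.and_eq_true, decide_eq_true_eq, decide_eq_true_eq]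
  generalize agl u v = c
  rcases Nat.le_total T (2 * c) with h | h
  · have e1 : T - 2 * c = 0 := by omega
    have e2 : |2 * (c : ℤ) - T| = ((2 * c - T : ℕ) : ℤ) := by
      rw [Nat.cast_sub h, abs_of_nonneg (by push_cast; omega)]
      push_cast
      rfl
    rw [e1, e2, mul_zero]
    constructor
    · rintro ⟨h2, _⟩
      exact_mod_cast h2
    · intro h2
      have h3 : M * (2 * c - T) < T := by exact_mod_cast h2
      exact ⟨h3, by omega⟩
  · have e1 : 2 * c - T = 0 := by omega
    have e2 : |2 * (c : ℤ) - T| = ((T - 2 * c : ℕ) : ℤ) := by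
      rw [Nat.cast_sub h, abs_of_nonpos (by push_cast; omega)]
      push_cast
      ring
    rw [e1, e2, mul_zero]
    constructor
    · rintro ⟨_, h2⟩
      exact_mod_cast h2
    · intro h2
      have h3 : M * (T - 2 * c) < T := by exact_mod_cast h2
      exact ⟨by omega, h3⟩

/-- The label vector of `u`. -/
def lv (P Q T : ℕ) (u : List Bool) : List Bool :=
  (List.range T).map (fun i => lab P (i / Q, i % Q) u)

theorem lv_length (P Q T : ℕ) (u : List Bool) : (lv P Q T u).length = T := by simp [lv]

theorem lv_getD {P Q T : ℕ} {u : List Bool} {i : ℕ} (hi : i < T) :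
    (lv P Q T u).getD i false = lab P (i / Q, i % Q) u := by
  rw [List.getD_eq_getElem _ _ (by rw [lv_length]; exact hi)]
  simp [lv]

/-- **Few label vectors correlate with a given vector.** -/
theorem few_bad {P k ℓ M : ℕ} (hP : P.Prime) (hk : P ≤ 2 ^ k) (hℓ : ℓ ≤ P * 2 ^ k)
    (hM : 2 * M ^ 2 * (2 ^ k * ℓ) ≤ P * 2 ^ k) (h : List Bool) (hh : h.length = P * 2 ^ k) :
    ((Finset.range (2 ^ ℓ)).filter (fun l => ¬ chk (P * 2 ^ k) M
      (lv P (2 ^ k) (P * 2 ^ k) (pad (P * 2 ^ k) ℓ l)) h = true)).card ≤ 2 * M ^ 2 := by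
  classical
  set T := P * 2 ^ k with hT
  have hT0 : 0 < T := Nat.mul_pos hP.pos (by positivity)
  have h2k : 0 < 2 ^ k := by positivity
  have key := few T ((Finset.range (2 ^ ℓ)).filter (fun l => ¬ chk T M
      (lv P (2 ^ k) T (pad T ℓ l)) h = true)) (fun l i => lab P (i / 2 ^ k, i % 2 ^ k) (pad T ℓ l))
    (fun i => h.getD i false) M ((2 ^ k * ℓ : ℕ) : ℤ) hT0 (Int.natCast_nonneg _) ?_ ?_
    (Int.natCast_nonneg _) (by exact_mod_cast hM)
  · exact_mod_cast key
  · intro l hl l' hl' hne
    rw [Finset.mem_filter, Finset.mem_range] at hl hl'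
    have h1 : pad T ℓ l ≠ pad T ℓ l' := fun h => hne (pad_inj hl.1 hl'.1 h)
    have h2 := lab_orth hP hk (pad T ℓ l) (pad T ℓ l')
      ((pad_length hℓ).trans (pad_length hℓ).symm) h1
    rw [pad_length hℓ] at h2
    have h3 := sum_div_mod P (2 ^ k) h2k (fun x y => sgn (lab P (x, y) (pad T ℓ l)) *
      sgn (lab P (x, y) (pad T ℓ l')))
    rw [h3]
    exact h2
  · intro l hl
    rw [Finset.mem_filter] at hl
    have h1 := hl.2
    rw [chk_iff (lv_length _ _ _ _) hh, not_lt] at h1
    refine h1.trans (le_of_eq ?_)
    congr 2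
    refine Finset.sum_congr rfl fun i hi => ?_
    rw [lv_getD (Finset.mem_range.1 hi)]

end Pool.Agent.TH682.VC
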