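import Pool.Agent.TH682.VC.Alg

/-!
# Correctness of the exclusion algorithm for votes
-/

set_option autoImplicit false

namespace Pool.Agent.TH682.VC

open Pool.Agent.NPC Pool.Agent.H579R2.Spt Pool.Agent.H251R5.PQ

variable {f : List Bool → List (List Bool)} {g : List Bool → List Bool}
  {E : List Bool → List (List Bool)}

theorem hh_length_mem {a : ℕ} {qs : List (List Bool)} :
    ∀ h ∈ hh f g E a qs, h.length = qs.length := by
  intro h hh1
  unfold hh at hh1
  rcases List.mem_cons.1 hh1 with rfl | h1
  · simp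
  · obtain ⟨e, _, rfl⟩ := List.mem_map.1 h1
    simp [vv]

/-- **The algorithm finds a label vector that correlates with no candidate.** -/
theorem fu_spec {K : ℕ} {qs : List (List Bool)} {a P k ℓ M : ℕ} (hP : P.Prime) (hk : P ≤ 2 ^ k)
    (hT : qs.length = P * 2 ^ k) (hℓ : ℓ ≤ P * 2 ^ k)
    (hM : 2 * M ^ 2 * (2 ^ k * ℓ) ≤ P * 2 ^ k) (hH : (hh f g E a qs).length * (2 * M ^ 2) < 2 ^ ℓ)
    (hK : 2 ^ ℓ ≤ qs.length ^ K) :
    ∀ h ∈ hh f g E a qs, chk qs.length M (lv P (2 ^ k) qs.length
      (pad qs.length ℓ (fu f g E K qs a P (2 ^ k) ℓ M))) h = true := by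
  classical
  set HH := hh f g E a qs with hHH
  set bad : List Bool → Finset ℕ := fun h => (Finset.range (2 ^ ℓ)).filter (fun l =>
    ¬ chk (P * 2 ^ k) M (lv P (2 ^ k) (P * 2 ^ k) (pad (P * 2 ^ k) ℓ l)) h = true) with hbad
  have h1 : ∀ h ∈ HH, (bad h).card ≤ 2 * M ^ 2 := fun h hh1 =>
    few_bad hP hk hℓ hM h ((hh_length_mem h hh1).trans hT)
  have h2 : (HH.toFinset.biUnion bad).card < 2 ^ ℓ := by
    refine lt_of_le_of_lt (Finset.card_biUnion_le_card_mul _ _ (2 * M ^ 2) fun h hh1 =>
      h1 h (List.mem_toFinset.1 hh1)) ?_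
    exact lt_of_le_of_lt (Nat.mul_le_mul_right _ (List.toFinset_card_le _)) hH
  have h3 : ∃ l ∈ Finset.range (2 ^ ℓ), l ∉ HH.toFinset.biUnion bad := by
    by_contra hcon
    push Not at hcon
    have h4 := Finset.card_le_card (show Finset.range (2 ^ ℓ) ⊆ HH.toFinset.biUnion bad from hcon)
    rw [Finset.card_range] at h4
    omega
  obtain ⟨l, hl, hl2⟩ := h3
  have h4 : l ∈ (List.range (qs.length ^ K)).filter (fun l => HH.all (fun h =>
      chk qs.length M (lv P (2 ^ k) qs.length (pad qs.length ℓ l)) h)) := by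
    refine List.mem_filter.2 ⟨List.mem_range.2 (lt_of_lt_of_le (Finset.mem_range.1 hl) hK), ?_⟩
    rw [List.all_eq_true]
    intro h hh1
    by_contra h5
    refine hl2 (Finset.mem_biUnion.2 ⟨h, List.mem_toFinset.2 hh1, ?_⟩)
    rw [hT] at h5
    exact Finset.mem_filter.2 ⟨hl, h5⟩
  have h5 : fu f g E K qs a P (2 ^ k) ℓ M ∈ (List.range (qs.length ^ K)).filter (fun l =>
      HH.all (fun h => chk qs.length M (lv P (2 ^ k) qs.length (pad qs.length ℓ l)) h)) := by
    unfold fu
    rcases hc : (List.range (qs.length ^ K)).filter (fun l => HH.all (fun h =>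
      chk qs.length M (lv P (2 ^ k) qs.length (pad qs.length ℓ l)) h)) with _ | ⟨t, ts⟩
    · rw [hc] at h4
      simp at h4
    · simp
  have h6 := (List.mem_filter.1 h5).2
  rw [List.all_eq_true] at h6
  exact h6

/-- **A vector that correlates with no candidate is not the vector of answers.** -/
theorem ans_ne {C : Set (Set (List Bool))} {A : Set (List Bool)}
    (hE : ∀ h ∈ C, ∀ qs : List (List Bool), answers h qs ∈ E (bits qs))
    {V : List (ℤ × Set (List Bool))} {t : ℤ} {W a : ℕ} {qs : List (List Bool)}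
    (hV : ∀ v ∈ V, v.2 ∈ C) (hW : (V.map (fun v => v.1.natAbs)).sum ≤ W)
    (hvote : ∀ y ∈ qs, (y ∈ A ↔ t < (V.map (fun v =>
          if g (bits ((y, a), answers v.2 (f (bits (y, a))))) = [true] then v.1 else 0)).sum))
    (hT0 : 0 < qs.length) {u : List Bool} (hu : u.length = qs.length)
    (hchk : ∀ h ∈ hh f g E a qs, chk qs.length (4 * W + 4) u h = true) : answers A qs ≠ u := by
  classical
  intro hcon
  set T := qs.length with hT
  set w : Set (List Bool) → ℕ → Bool := fun h i =>
    decide (g (bits ((qs.getD i [], a), answers h (f (bits (qs.getD i [], a))))) = [true]) with hw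
  set V' : List (ℤ × (ℕ → Bool)) := V.map (fun v => (v.1, w v.2)) with hV'
  have hW' : tw V' ≤ W := by
    refine le_trans (le_of_eq ?_) hW
    unfold tw
    rw [hV', List.map_map]
    first | done | rfl
  have hr : ∀ i < T, (u.getD i false = true ↔ t < (V'.map (fun p => if p.2 i then p.1 else 0)).sum) := by
    intro i hi
    have h1 := hvote (qs.getD i []) (by
      rw [List.getD_eq_getElem _ _ hi]
      exact List.getElem_mem hi)
    have h2 : u.getD i false = decide (qs.getD i [] ∈ A) := by
      rw [← hcon]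
      unfold answers
      rw [List.getD_eq_getElem _ _ (by simpa using hi), List.getD_eq_getElem _ _ hi,
        List.getElem_map]
    have h3 : V'.map (fun p => if p.2 i then p.1 else 0) = V.map (fun v =>
        if g (bits ((qs.getD i [], a), answers v.2 (f (bits (qs.getD i [], a))))) = [true]
        then v.1 else 0) := by
      rw [hV', List.map_map]
      refine List.map_congr_left fun v _ => ?_
      simp only [Function.comp, hw, decide_eq_true_eq]
    rw [h3, ← h1]
    simp only [h2, decide_eq_true_eq]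
  obtain ⟨h, hh1, hh2⟩ := exists_voter T hT0 V' t (fun i => u.getD i false) W hW' hr
  have h1 : (List.range T).map h ∈ hh f g E a qs := by
    unfold hh
    rcases hh1 with rfl | ⟨p, hp, rfl⟩
    · refine List.mem_cons.2 (Or.inl ?_)
      rw [hT]
      simp
    · obtain ⟨v, hv, rfl⟩ := List.mem_map.1 hp
      refine List.mem_cons_of_mem _ (List.mem_map.2 ⟨_, hE v.2 (hV v hv) (QQ f a qs), ?_⟩)
      rw [vv_answers]
      refine List.ext_getElem (by simp [hT]) fun i h1 h2 => ?_
      rw [List.getElem_map, List.getElem_map, List.getElem_range]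
      rw [List.length_map] at h1
      simp only [hw, List.getD_eq_getElem _ _ h1]
  have h2 := (chk_iff hu (by simp)).1 (hchk _ h1)
  have h3 : ∑ i ∈ Finset.range T, sgn (u.getD i false) * sgn (((List.range T).map h).getD i false) =
      ∑ i ∈ Finset.range T, sgn (u.getD i false) * sgn (h i) := by
    refine Finset.sum_congr rfl fun i hi => ?_
    rw [Finset.mem_range] at hi
    rw [List.getD_eq_getElem ((List.range T).map h) _ (by simpa using hi)]
    simp
  rw [h3] at h2
  push_cast at h2
  omega

end Pool.Agent.TH682.VC
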