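import Pool.Agent.TH682.VC.Excl
import Pool.Agent.TH682.VC.Enum

/-!
# `NP`-hard sets decided by votes of simple concepts give `P = NP`
-/

set_option autoImplicit false

namespace Pool.Agent.TH682.VC

open Pool.Agent.NPC Pool.Agent.H579R2.Spt Pool.Agent.H251R5.PQ
open Pool.Agent.TH684.EX (Exc poly_of_polyTime p_eq_np_of_exc)

/-- If some `NP`-hard set is decided by votes over an enumerable class then `P = NP`. -/
theorem p_eq_np_of_vote {A : Set (List Bool)} {C : Set (Set (List Bool))} (hA : NPHard A)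
    (hC : Enumerable C) (h : Vote C A) : ∀ L : Set (List Bool), InNP L → InP L := by
  obtain ⟨b, X, hX, hex⟩ := exc_of_vote hC h
  exact p_eq_np_of_exc hA lam_poly hX hex

/-- Sets in `P` are decided by votes. -/
theorem vote_of_inP {A : Set (List Bool)} (h : InP A) {C : Set (Set (List Bool))}
    (hC : C.Nonempty) : Vote C A := by
  obtain ⟨V, hV, hVA⟩ := h
  obtain ⟨c, hc⟩ := hC
  have hVp : Poly V := PIso.poly_iff.2 hV
  have hdec : Poly (fun z : List Bool =>
      (unbits ((List Bool × ℕ) × List Bool) z).getD (([], 0), [])) :=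
    NPC.Poly.optGetD poly_unbits (NPC.Poly.const _)
  refine ⟨fun _ => [], fun z => V ((unbits ((List Bool × ℕ) × List Bool) z).getD
    (([], 0), [])).1.1, 1, polyTime_bits (NPC.Poly.const _), ?_, fun n => ?_⟩
  · exact PIso.poly_iff.1 (hVp.comp (NPC.Poly.fst (NPC.Poly.fst hdec)))
  · refine ⟨0, Nat.zero_le _, [(1, c)], 0, ?_, ?_, fun x _ => ?_⟩
    · intro v hv
      rw [List.mem_singleton] at hv
      rw [hv]
      exact hc
    · simp
    · simp only [List.map_cons, List.map_nil, List.sum_cons, List.sum_nil, add_zero, unbits_bits,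
        Option.getD_some]
      rw [hVA x]
      by_cases hx : V x = [true]
      · simp [hx]
      · simp [hx]

theorem consistent_univ : InPP (Consistent {(Set.univ : Set (List Bool))}) := by
  refine inPP_of (d := fun s : List (List Bool × Bool) => s.all (fun p => p.2)) ?_ fun s => ?_
  · exact NPC.Poly.all (l := fun s : List (List Bool × Bool) => s) (p := fun _ p => p.2)
      NPC.Poly.id (NPC.Poly.snd (NPC.Poly.snd NPC.Poly.id))
  · rw [List.all_eq_true]
    constructor
    · rintro ⟨h, hh, h2⟩ p hp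
      rw [Set.mem_singleton_iff] at hh
      subst hh
      exact (h2 p hp).1 (Set.mem_univ _)
    · intro h
      exact ⟨_, rfl, fun p hp => by simp [h p hp]⟩

theorem vc_univ : VCAtMost {(Set.univ : Set (List Bool))} 0 := by
  intro F hF
  obtain ⟨h, hh, h2⟩ := hF ∅ (Finset.empty_subset _)
  rw [Set.mem_singleton_iff] at hh
  subst hh
  rw [Nat.le_zero, Finset.card_eq_zero, Finset.eq_empty_iff_forall_notMem]
  intro x hx
  have := (h2 x hx).1 (Set.mem_univ _)
  simp at this

/-- **Votes of simple concepts for an `NP`-hard set.** -/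
theorem vote_tfae : List.TFAE
    [∀ L : Set (List Bool), InNP L → InP L,
      ∃ (A : Set (List Bool)) (C : Set (Set (List Bool))) (d : ℕ), NPHard A ∧
        InPP (Consistent C) ∧ VCAtMost C d ∧ Vote C A,
      ∃ (A : Set (List Bool)) (C : Set (Set (List Bool))), NPHard A ∧ Enumerable C ∧ Vote C A,
      ∀ (A : Set (List Bool)) (C : Set (Set (List Bool))), InNP A → C.Nonempty → Vote C A] := by
  tfae_have 1 → 4 := fun h A C hA hC => vote_of_inP (h A hA) hC
  tfae_have 4 → 2 := fun h => by
    obtain ⟨h1, h2⟩ := Pool.Agent.NPC.H545KS.sat_complete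
    exact ⟨_, {Set.univ}, 0, h2, consistent_univ, vc_univ, h _ _ h1 ⟨_, rfl⟩⟩
  tfae_have 2 → 3 := fun ⟨A, C, d, h1, h2, h3, h4⟩ => ⟨A, C, h1, enumerable_of_vc h2 h3, h4⟩
  tfae_have 3 → 1 := fun ⟨A, C, h1, h2, h3⟩ => p_eq_np_of_vote h1 h2 h3
  tfae_finish

end Pool.Agent.TH682.VC
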